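import Mathlib
import Pool.Agent.Q63.FL.Main

/-!
# Clifford theory for a normal subgroup with nilpotent quotient: the key operator
-/

set_option autoImplicit false

namespace Pool.Agent.Q112.FL

open Pool.Agent.Q63.FL

section cliff

variable {G C V : Type} [Group G] [Group C] [AddCommGroup V] [Module ℂ V] [FiniteDimensional ℂ V]
  {r : Representation ℂ G V} {c : Representation ℂ C V}

/-- translates of stable subspaces -/
lemma stable_map (hcomm : ∀ w k, Commute (r w) (c k)) {T : Subgroup G} [T.Normal]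
    {S : Submodule ℂ V} (hS : Stable r c T S) (h : G) : Stable r c T (S.map (r h)) := by
  constructor
  · rintro t ht _ ⟨s, hs, rfl⟩
    have h1 : h⁻¹ * t * h ∈ T := by
      have := (inferInstance : T.Normal).conj_mem t ht h⁻¹
      simpa using this
    refine ⟨r (h⁻¹ * t * h) s, hS.1 _ h1 s hs, ?_⟩
    rw [← mul_ap, ← mul_ap]
    congr 2
    group
  · rintro k _ ⟨s, hs, rfl⟩
    refine ⟨c k s, hS.2 k s hs, ?_⟩
    exact congrArg (fun f : V →ₗ[ℂ] V => f s) (hcomm h k).eq

lemma stable_inf {T : Subgroup G} {S S' : Submodule ℂ V} (hS : Stable r c T S)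
    (hS' : Stable r c T S') : Stable r c T (S ⊓ S') :=
  ⟨fun h hh u hu => ⟨hS.1 h hh u hu.1, hS'.1 h hh u hu.2⟩,
    fun k u hu => ⟨hS.2 k u hu.1, hS'.2 k u hu.2⟩⟩

lemma stable_iff {T : Subgroup G} {S : Submodule ℂ V} : Stable r c T S ↔
    (∀ h ∈ T, S.map (r h) ≤ S) ∧ ∀ k, S.map (c k) ≤ S := by
  constructor
  · rintro ⟨h1, h2⟩
    refine ⟨fun h hh => ?_, fun k => ?_⟩
    · rintro _ ⟨u, hu, rfl⟩
      exact h1 h hh u hu
    · rintro _ ⟨u, hu, rfl⟩
      exact h2 k u hu
  · rintro ⟨h1, h2⟩
    exact ⟨fun h hh u hu => h1 h hh ⟨u, hu, rfl⟩, fun k u hu => h2 k ⟨u, hu, rfl⟩⟩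

lemma stable_sup {T : Subgroup G} {S S' : Submodule ℂ V} (hS : Stable r c T S)
    (hS' : Stable r c T S') : Stable r c T (S ⊔ S') := by
  rw [stable_iff] at *
  refine ⟨fun h hh => ?_, fun k => ?_⟩
  · rw [Submodule.map_sup]
    exact sup_le_sup (hS.1 h hh) (hS'.1 h hh)
  · rw [Submodule.map_sup]
    exact sup_le_sup (hS.2 k) (hS'.2 k)

lemma exists_irr {T : Subgroup G} (n : ℕ) : ∀ {U : Submodule ℂ V}, Module.finrank ℂ U ≤ n →
    U ≠ ⊥ → Stable r c T U → ∃ S ≤ U, Irr r c T S := by
  induction n with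
  | zero =>
    intro U hn hU
    exfalso
    apply hU
    rw [← Submodule.finrank_eq_zero (R := ℂ)]
    omega
  | succ n ih =>
    intro U hn hU hst
    by_cases h : ∀ U', U' ≤ U → Stable r c T U' → U' = ⊥ ∨ U' = U
    · exact ⟨U, le_rfl, hst, hU, h⟩
    · push Not at h
      obtain ⟨U', hle, hst', h1, h2⟩ := h
      have hlt := Submodule.finrank_lt_finrank_of_lt (lt_of_le_of_ne hle h2)
      obtain ⟨S, hS, hi⟩ := ih (by omega) h1 hst'
      exact ⟨S, hS.trans hle, hi⟩

lemma irr_map (hcomm : ∀ w k, Commute (r w) (c k)) {T : Subgroup G} [T.Normal]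
    {S : Submodule ℂ V} (hS : Irr r c T S) (h : G) : Irr r c T (S.map (r h)) := by
  refine ⟨stable_map hcomm hS.1 h, map_ne_bot hS.2.1, fun U' hle hst => ?_⟩
  have h1 := stable_map hcomm hst h⁻¹
  have h2 : U'.map (r h⁻¹) ≤ S := by
    refine (Submodule.map_mono hle).trans ?_
    rw [← map_mul_rep, inv_mul_cancel, map_one_rep]
  have h3 : (U'.map (r h⁻¹)).map (r h) = U' := by
    rw [← map_mul_rep, mul_inv_cancel, map_one_rep]
  rcases hS.2.2 _ h2 h1 with h4 | h4
  · left
    rw [← h3, h4, Submodule.map_bot]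
  · right
    rw [← h3, h4]

/-- complements for a normal subgroup -/
lemma exists_compl (hcomm : ∀ w k, Commute (r w) (c k)) {T : Subgroup G} [T.Normal]
    (hirr : ∀ U, Stable r c (⊤ : Subgroup G) U → U = ⊥ ∨ U = ⊤) [Nontrivial V]
    {X : Submodule ℂ V} (hX : Stable r c T X) : ∃ Y, Stable r c T Y ∧ IsCompl X Y := by
  have htopst : Stable r c T (⊤ : Submodule ℂ V) := ⟨fun _ _ _ _ => trivial, fun _ _ _ => trivial⟩
  obtain ⟨S, -, hS⟩ := exists_irr (r := r) (c := c) (T := T) _ le_rfl
    (top_ne_bot (α := Submodule ℂ V)) htopst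
  have key : ∀ n, ∀ Y : Submodule ℂ V, Stable r c T Y → Disjoint X Y →
      Module.finrank ℂ V ≤ Module.finrank ℂ (X ⊔ Y : Submodule ℂ V) + n →
      ∃ Y, Stable r c T Y ∧ IsCompl X Y := by
    intro n
    induction n with
    | zero =>
      intro Y hY hd hn
      refine ⟨Y, hY, hd, ?_⟩
      rw [codisjoint_iff]
      apply Submodule.eq_top_of_finrank_eq
      have := Submodule.finrank_le (X ⊔ Y)
      omega
    | succ n ih =>
      intro Y hY hd hn
      by_cases htop : X ⊔ Y = ⊤
      · exact ⟨Y, hY, hd, codisjoint_iff.2 htop⟩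
      have h1 : ∃ h : G, ¬ S.map (r h) ≤ X ⊔ Y := by
        by_contra hc
        push Not at hc
        apply htop
        rw [eq_top_iff]
        have h2 : Stable r c (⊤ : Subgroup G) (⨆ h : G, S.map (r h)) := by
          rw [stable_iff]
          refine ⟨fun g _ => ?_, fun k => ?_⟩
          · rw [Submodule.map_iSup]
            refine iSup_le fun h => ?_
            rw [← map_mul_rep]
            exact le_iSup (fun h => S.map (r h)) (g * h)
          · rw [Submodule.map_iSup]
            refine iSup_le fun h => ?_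
            refine le_trans ?_ (le_iSup (fun h => S.map (r h)) h)
            exact (stable_iff.1 (stable_map hcomm hS.1 h)).2 k
        rcases hirr _ h2 with h3 | h3
        · exfalso
          apply hS.2.1
          rw [eq_bot_iff, ← h3]
          have := le_iSup (fun h => S.map (r h)) 1
          rwa [map_one_rep] at this
        · rw [← h3]
          exact iSup_le hc
      obtain ⟨h, hh⟩ := h1
      have hSi := irr_map hcomm hS h
      have hdis : Disjoint (X ⊔ Y) (S.map (r h)) := by
        rw [disjoint_iff]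
        rcases hSi.2.2 ((X ⊔ Y) ⊓ S.map (r h)) inf_le_right
          (stable_inf (stable_sup hX hY) hSi.1) with h4 | h4
        · exact h4
        · exfalso
          apply hh
          rw [← h4]
          exact inf_le_left
      refine ih (Y ⊔ S.map (r h)) (stable_sup hY hSi.1)
        (hd.disjoint_sup_right_of_disjoint_sup_left hdis) ?_
      have hlt : X ⊔ Y < X ⊔ (Y ⊔ S.map (r h)) := by
        rw [← sup_assoc]
        refine lt_of_le_of_ne le_sup_left fun heq => hh ?_
        rw [heq]
        exact le_sup_right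
      have := Submodule.finrank_lt_finrank_of_lt hlt
      omega
  exact key _ ⊥ ⟨fun h _ u hu => by
      rw [Submodule.mem_bot] at hu ⊢; rw [hu, map_zero], fun k u hu => by
      rw [Submodule.mem_bot] at hu ⊢; rw [hu, map_zero]⟩ disjoint_bot_right (Nat.le_add_left _ _)

end cliff

section main

variable {G C V : Type} [Group G] [Group C] [AddCommGroup V] [Module ℂ V] [FiniteDimensional ℂ V]
  [Nontrivial V] {r : Representation ℂ G V} {c : Representation ℂ C V}

/-- operators commuting with `T` and `C` -/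
def EE (r : Representation ℂ G V) (c : Representation ℂ C V) (T : Subgroup G) :
    Submodule ℂ (Module.End ℂ V) where
  carrier := {x | (∀ t ∈ T, Commute (r t) x) ∧ ∀ k, Commute (c k) x}
  add_mem' := fun hx hy => ⟨fun t ht => (hx.1 t ht).add_right (hy.1 t ht),
    fun k => (hx.2 k).add_right (hy.2 k)⟩
  zero_mem' := ⟨fun _ _ => Commute.zero_right _, fun _ => Commute.zero_right _⟩
  smul_mem' := fun z x hx => ⟨fun t ht => (hx.1 t ht).smul_right z, fun k => (hx.2 k).smul_right z⟩

lemma conj_mem_EE (hcomm : ∀ w k, Commute (r w) (c k)) {T : Subgroup G} [T.Normal]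
    {x : Module.End ℂ V} (hx : x ∈ EE r c T) (h : G) : r h * x * r h⁻¹ ∈ EE r c T := by
  refine ⟨fun t ht => ?_, fun k => ?_⟩
  · have h1 : h⁻¹ * t * h ∈ T := by
      have := (inferInstance : T.Normal).conj_mem t ht h⁻¹
      simpa using this
    have h2 := (hx.1 _ h1).eq
    show r t * (r h * x * r h⁻¹) = r h * x * r h⁻¹ * r t
    calc r t * (r h * x * r h⁻¹) = r h * (r (h⁻¹ * t * h) * x) * r h⁻¹ := by
          have : r t * r h = r h * r (h⁻¹ * t * h) := by
            rw [← map_mul, ← map_mul]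
            congr 1
            group
          rw [← mul_assoc, ← mul_assoc, this, ← mul_assoc]
      _ = r h * x * (r (h⁻¹ * t * h) * r h⁻¹) := by rw [h2]; simp only [mul_assoc]
      _ = r h * x * r h⁻¹ * r t := by
          rw [← map_mul, mul_assoc (r h * x), ← map_mul]
          congr 2
          group
  · exact (((hcomm h k).symm).mul_right (hx.2 k)).mul_right (hcomm h⁻¹ k).symm

/-- the key operator -/
theorem key (hcomm : ∀ w k, Commute (r w) (c k)) (A : Subgroup G) [A.Normal] [Finite (G ⧸ A)]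
    [Group.IsNilpotent (G ⧸ A)] (hirr : ∀ U, Stable r c (⊤ : Subgroup G) U → U = ⊥ ∨ U = ⊤)
    {X : Submodule ℂ V} (hX : Stable r c A X) (hX0 : X ≠ ⊥) (hX1 : X ≠ ⊤) :
    ∃ x ∈ EE r c A, (∀ h : G, ∃ ν : ℂ, r h * x = ν • (x * r h)) ∧ ∀ z : ℂ, x ≠ z • 1 := by
  classical
  -- a maximal normal subgroup with a reducible restriction
  have hfi : A.FiniteIndex := Subgroup.finiteIndex_of_finite_quotient
  let P : ℕ → Prop := fun n => ∃ T : Subgroup G, A ≤ T ∧ T.Normal ∧ T.index = n ∧
    ∃ X, Stable r c T X ∧ X ≠ ⊥ ∧ X ≠ ⊤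
  have hP : ∃ n, P n := ⟨_, A, le_rfl, inferInstance, rfl, X, hX, hX0, hX1⟩
  obtain ⟨T, hAT, hTn, hTi, X', hX', hX'0, hX'1⟩ := Nat.find_spec hP
  have hmin : ∀ T' : Subgroup G, A ≤ T' → T'.Normal → T < T' → ∀ X, Stable r c T' X →
      X = ⊥ ∨ X = ⊤ := by
    intro T' hAT' hT'n hlt X hX
    by_contra hc
    push Not at hc
    have hfT : T.FiniteIndex := Subgroup.finiteIndex_of_le hAT
    have h1 := Subgroup.index_strictAnti hlt
    have h2 : P T'.index := ⟨T', hAT', hT'n, rfl, X, hX, hc.1, hc.2⟩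
    have h3 := Nat.find_min' hP h2
    omega
  have hTtop : ¬ (⊤ : Subgroup G) ≤ T := by
    intro h
    have h1 : T = ⊤ := top_le_iff.1 h
    rw [h1] at hX'
    rcases hirr _ hX' with h2 | h2
    · exact hX'0 h2
    · exact hX'1 h2
  obtain ⟨b, -, hbT, hb⟩ := exists_b (A := A) (Z := T) (H := ⊤) hAT hTtop
  -- irreducibility for `T` and `b`
  have hTb : ∀ X : Submodule ℂ V, Stable r c T X → (∀ u ∈ X, r b u ∈ X) → X = ⊥ ∨ X = ⊤ := by
    intro X hX hbX
    have hrinj : ∀ g : G, Function.Injective (r g) := by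
      intro g u v huv
      rw [← inv_apply' (r := r) g u, huv, inv_apply']
    have hbmap : X.map (r b) = X := by
      apply Submodule.eq_of_le_of_finrank_eq
      · rintro _ ⟨u, hu, rfl⟩
        exact hbX u hu
      · exact (Submodule.equivMapOfInjective (r b) (hrinj b) X).finrank_eq.symm
    let S : Subgroup G :=
      { carrier := {g | X.map (r g) = X}
        mul_mem' := by
          intro a b ha hb
          show X.map (r (a * b)) = X
          rw [map_mul_rep, hb, ha]
        one_mem' := map_one_rep _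
        inv_mem' := by
          intro a ha
          show X.map (r a⁻¹) = X
          conv_lhs => rw [← (ha : X.map (r a) = X)]
          rw [← map_mul_rep, inv_mul_cancel, map_one_rep] }
    have hTS : T ≤ S := by
      intro t ht
      show X.map (r t) = X
      apply Submodule.eq_of_le_of_finrank_eq
      · rintro _ ⟨u, hu, rfl⟩
        exact hX.1 t ht u hu
      · exact (Submodule.equivMapOfInjective (r t) (hrinj t) X).finrank_eq.symm
    have hbS : Subgroup.zpowers b ≤ S := by
      rw [Subgroup.zpowers_le]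
      exact hbmap
    have hnorm : (T ⊔ Subgroup.zpowers b).Normal := by
      refine ⟨fun n hn g => ?_⟩
      have h1 : (T ⊔ Subgroup.zpowers b) ≤ (T ⊔ Subgroup.zpowers b).comap
          (MulAut.conj g).toMonoidHom := by
        rw [sup_le_iff, Subgroup.zpowers_le]
        refine ⟨fun t ht => ?_, ?_⟩
        · rw [Subgroup.mem_comap]
          exact (le_sup_left : T ≤ T ⊔ Subgroup.zpowers b) (hTn.conj_mem t ht g)
        · rw [Subgroup.mem_comap]
          have h2 : (b * g * b⁻¹ * g⁻¹)⁻¹ ∈ T := T.inv_mem (hb g trivial)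
          have h3 : (MulAut.conj g).toMonoidHom b = (b * g * b⁻¹ * g⁻¹)⁻¹ * b := by
            show g * b * g⁻¹ = _
            group
          rw [h3]
          exact Subgroup.mul_mem _ ((le_sup_left : T ≤ T ⊔ Subgroup.zpowers b) h2)
            ((le_sup_right : Subgroup.zpowers b ≤ T ⊔ Subgroup.zpowers b)
              (Subgroup.mem_zpowers b))
      exact h1 hn
    refine hmin (T ⊔ Subgroup.zpowers b) (hAT.trans le_sup_left) hnorm ?_ X ⟨fun h hh u hu => ?_, hX.2⟩
    · refine lt_of_le_of_ne le_sup_left fun heq => hbT ?_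
      rw [heq]
      exact (le_sup_right : Subgroup.zpowers b ≤ T ⊔ Subgroup.zpowers b) (Subgroup.mem_zpowers b)
    · have h1 : X.map (r h) = X := (sup_le hTS hbS : T ⊔ Subgroup.zpowers b ≤ S) hh
      rw [← h1]
      exact ⟨u, hu, rfl⟩
  -- the projection
  obtain ⟨Y', hY', hc⟩ := exists_compl hcomm hirr hX'
  have hproj : ∀ f : Module.End ℂ V, (∀ u ∈ X', f u ∈ X') → (∀ u ∈ Y', f u ∈ Y') →
      Commute f (X'.projection Y' hc) := by
    intro f hf1 hf2
    refine LinearMap.ext fun v => ?_
    show f (X'.projection Y' hc v) = X'.projection Y' hc (f v)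
    obtain ⟨y, hy, z, hz, rfl⟩ := Submodule.mem_sup.1
      (by rw [codisjoint_iff.1 hc.codisjoint]; trivial : v ∈ X' ⊔ Y')
    have e1 : X'.projection Y' hc (y + z) = y := by
      rw [map_add, Submodule.projection_apply_of_mem_left hc hy,
        (Submodule.projection_apply_eq_zero_iff hc).2 hz, add_zero]
    have e2 : X'.projection Y' hc (f (y + z)) = f y := by
      rw [map_add, map_add, Submodule.projection_apply_of_mem_left hc (hf1 y hy),
        (Submodule.projection_apply_eq_zero_iff hc).2 (hf2 z hz), add_zero]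
    rw [e1, e2]
  let p : Module.End ℂ V := X'.projection Y' hc
  have hpE : p ∈ EE r c T := ⟨fun t ht => hproj (r t) (hX'.1 t ht) (hY'.1 t ht),
    fun k => hproj (c k) (hX'.2 k) (hY'.2 k)⟩
  have hpns : ∀ z : ℂ, p ≠ z • 1 := by
    intro z hz
    have h1 : ∀ v, p v = z • v := fun v => by rw [hz]; rfl
    obtain ⟨u, hu, hu0⟩ := X'.ne_bot_iff.1 hX'0
    have hY0 : Y' ≠ ⊥ := by
      intro h
      apply hX'1
      have := codisjoint_iff.1 hc.codisjoint
      rwa [h, sup_bot_eq] at this
    obtain ⟨w, hw, hw0⟩ := Y'.ne_bot_iff.1 hY0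
    have h2 : p u = u := Submodule.projection_apply_of_mem_left hc hu
    have h3 : p w = 0 := (Submodule.projection_apply_eq_zero_iff hc).2 hw
    rw [h1] at h2 h3
    rcases smul_eq_zero.1 h3 with h4 | h4
    · rw [h4, zero_smul] at h2
      exact hu0 h2.symm
    · exact hw0 h4
  -- conjugation by `b`
  let α : Module.End ℂ V →ₗ[ℂ] Module.End ℂ V :=
    { toFun := fun x => r b * x * r b⁻¹
      map_add' := fun x y => by rw [mul_add, add_mul]
      map_smul' := fun z x => by
        rw [mul_smul_comm, smul_mul_assoc]; rfl }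
  have hα : ∀ x ∈ EE r c T, α x ∈ EE r c T := fun x hx => conj_mem_EE hcomm hx b
  let β : EE r c T →ₗ[ℂ] EE r c T := α.restrict hα
  have hβ : ∀ x : EE r c T, ((β x : EE r c T) : Module.End ℂ V) = r b * x * r b⁻¹ := fun x => rfl
  have hpow : ∀ (n : ℕ) (x : EE r c T),
      (((β ^ n) x : EE r c T) : Module.End ℂ V) = r (b ^ n) * x * r (b ^ n)⁻¹ := by
    intro n x
    induction n with
    | zero => simp
    | succ n ih =>
      rw [pow_succ', Module.End.mul_apply, hβ, ih, pow_succ', mul_inv_rev, map_mul, map_mul]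
      simp only [mul_assoc]
  have hfi' : T.FiniteIndex := Subgroup.finiteIndex_of_le hAT
  obtain ⟨n, hn0, -, hnT⟩ := Subgroup.exists_pow_mem_of_index_ne_zero hfi'.index_ne_zero b
  have hn0' : n ≠ 0 := by omega
  have hβn : β ^ n = 1 := by
    refine LinearMap.ext fun x => Subtype.ext ?_
    rw [hpow]
    have h1 := (x.2.1 _ hnT).eq
    rw [h1, mul_assoc, ← map_mul, mul_inv_cancel, map_one, mul_one]
    rfl
  have hss : Module.End.IsSemisimple (β : Module.End ℂ (EE r c T)) := by
    refine Module.End.isSemisimple_of_squarefree_aeval_eq_zero (p := Polynomial.X ^ n - 1)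
      (Polynomial.X_pow_sub_one_separable_iff.2 (Nat.cast_ne_zero.2 hn0')).squarefree ?_
    rw [map_sub, map_pow, Polynomial.aeval_X, map_one, hβn, sub_self]
  have hsup : ⨆ μ, Module.End.eigenspace β μ = ⊤ := by
    rw [← Module.End.iSup_maxGenEigenspace_eq_top β]
    exact iSup_congr fun μ => (hss.isFinitelySemisimple.maxGenEigenspace_eq_eigenspace μ).symm
  -- a nonscalar eigenvector
  obtain ⟨μ, x, hx, hxns⟩ : ∃ μ, ∃ x ∈ Module.End.eigenspace β μ,
      ∀ z : ℂ, (x : Module.End ℂ V) ≠ z • 1 := by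
    by_contra hcon
    push Not at hcon
    have h1 : (⊤ : Submodule ℂ (EE r c T)) ≤
        (Submodule.span ℂ {(1 : Module.End ℂ V)}).comap (EE r c T).subtype := by
      rw [← hsup]
      refine iSup_le fun μ x hx => ?_
      obtain ⟨z, hz⟩ := hcon μ x hx
      rw [Submodule.mem_comap, Submodule.mem_span_singleton]
      exact ⟨z, hz.symm⟩
    have h2 := h1 (x := ⟨p, hpE⟩) trivial
    rw [Submodule.mem_comap, Submodule.mem_span_singleton] at h2
    obtain ⟨z, hz⟩ := h2
    exact hpns z hz.symm
  have hbx : ∀ y : EE r c T, y ∈ Module.End.eigenspace β μ →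
      r b * (y : Module.End ℂ V) = μ • ((y : Module.End ℂ V) * r b) := by
    intro y hy
    have h1 : r b * (y : Module.End ℂ V) * r b⁻¹ = μ • (y : Module.End ℂ V) :=
      congrArg Subtype.val (Module.End.mem_eigenspace_iff.1 hy)
    calc r b * (y : Module.End ℂ V) = r b * (y : Module.End ℂ V) * r b⁻¹ * r b := by
          rw [mul_assoc _ (r b⁻¹), ← map_mul, inv_mul_cancel, map_one, mul_one]
      _ = μ • ((y : Module.End ℂ V) * r b) := by rw [h1, smul_mul_assoc]
  have hμ0 : μ ≠ 0 := by
    intro h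
    have h1 := hbx x hx
    rw [h, zero_smul] at h1
    apply hxns 0
    rw [zero_smul]
    calc (x : Module.End ℂ V) = r b⁻¹ * (r b * (x : Module.End ℂ V)) := by
          rw [← mul_assoc, ← map_mul, inv_mul_cancel, map_one, one_mul]
      _ = 0 := by rw [h1, mul_zero]
  have hker : ∀ y : EE r c T, y ∈ Module.End.eigenspace β μ →
      (y : Module.End ℂ V) = 0 ∨ LinearMap.ker (y : Module.End ℂ V) = ⊥ := by
    intro y hy
    have h1 : Stable r c T (LinearMap.ker (y : Module.End ℂ V)) := by
      refine ⟨fun t ht u hu => ?_, fun k u hu => ?_⟩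
      · rw [LinearMap.mem_ker] at hu ⊢
        have := congrArg (fun f : Module.End ℂ V => f u) (y.2.1 t ht).eq
        simp only [Module.End.mul_apply] at this
        rw [← this, hu, map_zero]
      · rw [LinearMap.mem_ker] at hu ⊢
        have := congrArg (fun f : Module.End ℂ V => f u) (y.2.2 k).eq
        simp only [Module.End.mul_apply] at this
        rw [← this, hu, map_zero]
    rcases hTb _ h1 (fun u hu => by
      rw [LinearMap.mem_ker] at hu ⊢
      have := congrArg (fun f : Module.End ℂ V => f u) (hbx y hy)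
      simp only [Module.End.mul_apply, LinearMap.smul_apply] at this
      rw [hu, map_zero] at this
      exact (smul_eq_zero.1 this.symm).resolve_left hμ0) with h2 | h2
    · exact Or.inr h2
    · left
      exact LinearMap.ker_eq_top.1 h2
  have hxinj : Function.Injective (x : Module.End ℂ V) := by
    rw [← LinearMap.ker_eq_bot]
    refine (hker x hx).resolve_left fun h => hxns 0 ?_
    rw [h, zero_smul]
  have huniq : ∀ y : EE r c T, y ∈ Module.End.eigenspace β μ →
      ∃ ν : ℂ, (y : Module.End ℂ V) = ν • (x : Module.End ℂ V) := by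
    intro y hy
    let e := LinearEquiv.ofInjectiveEndo (x : Module.End ℂ V) hxinj
    obtain ⟨ν, hν⟩ := Module.End.exists_eigenvalue
      ((e.symm : V →ₗ[ℂ] V) * (y : Module.End ℂ V) : Module.End ℂ V)
    obtain ⟨v, hv⟩ := hν.exists_hasEigenvector
    have h1 : (y : Module.End ℂ V) v = ν • (x : Module.End ℂ V) v := by
      have h2 := congrArg e hv.apply_eq_smul
      have h3 : e (((e.symm : V →ₗ[ℂ] V) * (y : Module.End ℂ V) : Module.End ℂ V) v)
          = (y : Module.End ℂ V) v := e.apply_symm_apply _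
      rw [h3, map_smul] at h2
      exact h2
    refine ⟨ν, ?_⟩
    have h4 := hker (y - ν • x) (Submodule.sub_mem _ hy (Submodule.smul_mem _ ν hx))
    rcases h4 with h4 | h4
    · have h5 : (y : Module.End ℂ V) - ν • (x : Module.End ℂ V) = 0 := h4
      exact sub_eq_zero.1 h5
    · exfalso
      apply hv.2
      have h5 : v ∈ LinearMap.ker ((y - ν • x : EE r c T) : Module.End ℂ V) := by
        rw [LinearMap.mem_ker]
        show ((y : Module.End ℂ V) - ν • (x : Module.End ℂ V)) v = 0
        rw [LinearMap.sub_apply, LinearMap.smul_apply, h1, sub_self]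
      rwa [h4, Submodule.mem_bot] at h5
  refine ⟨x, ⟨fun a ha => x.2.1 a (hAT ha), x.2.2⟩, fun h => ?_, hxns⟩
  let y : EE r c T := ⟨r h * x * r h⁻¹, conj_mem_EE hcomm x.2 h⟩
  have hy : y ∈ Module.End.eigenspace β μ := by
    rw [Module.End.mem_eigenspace_iff]
    apply Subtype.ext
    show r b * (r h * (x : Module.End ℂ V) * r h⁻¹) * r b⁻¹ = μ • (r h * x * r h⁻¹)
    have h1 : b * h = (b * h * b⁻¹ * h⁻¹) * (h * b) := by group
    have h2 := hb h trivial
    have h3 := (y.2.1 _ h2).eq
    have h4 : r b * (x : Module.End ℂ V) * r b⁻¹ = μ • (x : Module.End ℂ V) :=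
      congrArg Subtype.val (Module.End.mem_eigenspace_iff.1 hx)
    calc r b * (r h * (x : Module.End ℂ V) * r h⁻¹) * r b⁻¹
        = r (b * h) * x * r (b * h)⁻¹ := by
          rw [mul_inv_rev, map_mul, map_mul]
          simp only [mul_assoc]
      _ = r (b * h * b⁻¹ * h⁻¹) * (r h * (r b * x * r b⁻¹) * r h⁻¹)
            * r (b * h * b⁻¹ * h⁻¹)⁻¹ := by
          have e1 : r (b * h) = r (b * h * b⁻¹ * h⁻¹) * (r h * r b) := by
            rw [← map_mul, ← map_mul, ← h1]
          have e2 : r (b * h)⁻¹ = (r b⁻¹ * r h⁻¹) * r (b * h * b⁻¹ * h⁻¹)⁻¹ := by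
            rw [← map_mul, ← map_mul]
            congr 1
            group
          rw [e1, e2]
          simp only [mul_assoc]
      _ = μ • (r (b * h * b⁻¹ * h⁻¹) * (r h * x * r h⁻¹) * r (b * h * b⁻¹ * h⁻¹)⁻¹) := by
          rw [h4]
          simp only [mul_smul_comm, smul_mul_assoc]
      _ = μ • (r h * x * r h⁻¹) := by
          have h5 : r (b * h * b⁻¹ * h⁻¹) * (r h * (x : Module.End ℂ V) * r h⁻¹)
              = (r h * x * r h⁻¹) * r (b * h * b⁻¹ * h⁻¹) := h3
          rw [h5, mul_assoc, ← map_mul, mul_inv_cancel, map_one, mul_one]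
  obtain ⟨ν, hν⟩ := huniq y hy
  refine ⟨ν, ?_⟩
  have h1 : r h * (x : Module.End ℂ V) * r h⁻¹ = ν • (x : Module.End ℂ V) := hν
  calc r h * (x : Module.End ℂ V) = r h * (x : Module.End ℂ V) * r h⁻¹ * r h := by
        rw [mul_assoc _ (r h⁻¹), ← map_mul, inv_mul_cancel, map_one, mul_one]
    _ = ν • ((x : Module.End ℂ V) * r h) := by rw [h1, smul_mul_assoc]

end main

end Pool.Agent.Q112.FL
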