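import Mathlib
import Pool.Agent.Q112.FL.Key

/-!
# Clifford theory for a normal subgroup with nilpotent quotient: induced representations
-/

set_option autoImplicit false

namespace Pool.Agent.Q112.FL

open Pool.Agent.Q63.FL

variable {W C V : Type} [Group W] [Group C] [AddCommGroup V] [Module ℂ V] [FiniteDimensional ℂ V]
  {r : Representation ℂ W V} {c : Representation ℂ C V}

/-- the restriction of an operator family to a stable subspace -/
def rest {G : Type} [Group G] (s : Representation ℂ G V) (U : Submodule ℂ V)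
    (h : ∀ g, ∀ u ∈ U, s g u ∈ U) : Representation ℂ G U where
  toFun g := (s g).restrict (h g)
  map_one' := by
    refine LinearMap.ext fun u => Subtype.ext ?_
    show s 1 (u : V) = u
    rw [map_one]
    rfl
  map_mul' a b := by
    refine LinearMap.ext fun u => Subtype.ext ?_
    show s (a * b) (u : V) = s a (s b u)
    rw [map_mul]
    rfl

lemma quot_inj (A H : Subgroup W) [A.Normal] : Function.Injective
    (QuotientGroup.map (A.subgroupOf H) A H.subtype le_rfl) := by
  rw [injective_iff_map_eq_one]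
  intro x
  induction x using QuotientGroup.induction_on with | _ x => ?_
  intro hx
  have h1 : ((x : W) : W ⧸ A) = 1 := hx
  rw [QuotientGroup.eq_one_iff] at h1
  rw [QuotientGroup.eq_one_iff, Subgroup.mem_subgroupOf]
  exact h1

/-- A representation of `H × C` whose restriction to `A × C` is reducible is induced from a normal
subgroup of prime index. -/
theorem imprim (hcomm : ∀ w k, Commute (r w) (c k)) {A H : Subgroup W} [A.Normal]
    [hf : Finite (W ⧸ A)] [hn : Group.IsNilpotent (W ⧸ A)] (hAH : A ≤ H) {U : Submodule ℂ V}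
    (hU : Irr r c H U) (hA : ¬ Irr r c A U) :
    ∃ M U₀, A ≤ M ∧ M ≤ H ∧ (∀ h ∈ H, ∀ m ∈ M, h * m * h⁻¹ ∈ M) ∧ (M.relIndex H).Prime ∧
      IsInduced r M H U₀ U ∧ Irr r c M U₀ ∧ Module.finrank ℂ U₀ < Module.finrank ℂ U := by
  have hst := hU.1
  have hUn : Nontrivial U := Submodule.nontrivial_iff_ne_bot.2 hU.2.1
  let rU : Representation ℂ H U := rest (r.comp H.subtype) U fun h => hst.1 h h.2
  let cU : Representation ℂ C U := rest c U hst.2
  have hrU : ∀ (h : H) (u : U), ((rU h u : U) : V) = r (h : W) u := fun _ _ => rfl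
  have hcU : ∀ (k : C) (u : U), ((cU k u : U) : V) = c k u := fun _ _ => rfl
  have hcommU : ∀ (h : H) (k : C), Commute (rU h) (cU k) := by
    intro h k
    refine LinearMap.ext fun u => Subtype.ext ?_
    exact congrArg (fun f : V →ₗ[ℂ] V => f u) (hcomm h k).eq
  have hfin : Finite (H ⧸ A.subgroupOf H) := Finite.of_injective _ (quot_inj A H)
  have hnil : Group.IsNilpotent (H ⧸ A.subgroupOf H) := by
    refine Subgroup.isNilpotent_of_ker_le_center
      (QuotientGroup.map (A.subgroupOf H) A H.subtype le_rfl) ?_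
    rw [(MonoidHom.ker_eq_bot_iff _).2 (quot_inj A H)]
    exact bot_le
  have hirrU : ∀ S : Submodule ℂ U, Stable rU cU (⊤ : Subgroup H) S → S = ⊥ ∨ S = ⊤ := by
    intro S hS
    have h1 : Stable r c H (S.map U.subtype) := by
      constructor
      · rintro h hh _ ⟨s, hs, rfl⟩
        exact ⟨rU ⟨h, hh⟩ s, hS.1 ⟨h, hh⟩ trivial s hs, rfl⟩
      · rintro k _ ⟨s, hs, rfl⟩
        exact ⟨cU k s, hS.2 k s hs, rfl⟩
    rcases hU.2.2 _ (Submodule.map_subtype_le U S) h1 with h2 | h2
    · left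
      apply Submodule.map_injective_of_injective U.subtype_injective
      rw [h2, Submodule.map_bot]
    · right
      apply Submodule.map_injective_of_injective U.subtype_injective
      rw [h2, Submodule.map_top, Submodule.range_subtype]
  have hstA : Stable r c A U := ⟨fun a ha => hst.1 a (hAH ha), hst.2⟩
  obtain ⟨X, hXU, hX, hX0, hXne⟩ : ∃ X, X ≤ U ∧ Stable r c A X ∧ X ≠ ⊥ ∧ X ≠ U := by
    by_contra hcon
    apply hA
    refine ⟨hstA, hU.2.1, fun X hXU hX => ?_⟩
    by_contra h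
    push Not at h
    exact hcon ⟨X, hXU, hX, h.1, h.2⟩
  have hmapX : (X.comap U.subtype).map U.subtype = X := by
    rw [Submodule.map_comap_subtype, inf_eq_right.2 hXU]
  obtain ⟨x, hx, hxh, hxns⟩ := key (r := rU) (c := cU) hcommU (A.subgroupOf H) hirrU
    (X := X.comap U.subtype)
    ⟨fun a ha u hu => hX.1 a (Subgroup.mem_subgroupOf.1 ha) u hu, fun k u hu => hX.2 k u hu⟩
    (fun h => hX0 (by rw [← hmapX, h, Submodule.map_bot]))
    (fun h => hXne (by rw [← hmapX, h, Submodule.map_top, Submodule.range_subtype]))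
  choose ν hν using hxh
  obtain ⟨μ, hμ⟩ := Module.End.exists_eigenvalue x
  let E : ℂ → Submodule ℂ V := fun z => (Module.End.eigenspace x z).map U.subtype
  have hEU : ∀ z, E z ≤ U := fun z => Submodule.map_subtype_le U _
  have hE : iSupIndep E :=
    LinearMap.iSupIndep_map U.subtype U.subtype_injective (Module.End.eigenspaces_iSupIndep x)
  have hmem : ∀ (z : ℂ) (u : U), (u : V) ∈ E z ↔ x u = z • u := by
    intro z u
    constructor
    · rintro ⟨v, hv, hvu⟩
      have : v = u := Subtype.ext hvu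
      rw [← this]
      exact Module.End.mem_eigenspace_iff.1 hv
    · intro h
      exact ⟨u, Module.End.mem_eigenspace_iff.2 h, rfl⟩
  have hνx : ∀ (h : H) (u : U), rU h (x u) = ν h • x (rU h u) := fun h u =>
    congrArg (fun f : Module.End ℂ U => f u) (hν h)
  have hx0 : x ≠ 0 := fun h => hxns 0 (by rw [h, zero_smul])
  have hν0 : ∀ h : H, ν h ≠ 0 := by
    intro h h0
    apply hx0
    refine LinearMap.ext fun u => ?_
    have h1 := hνx h u
    rw [h0, zero_smul] at h1
    have h2 := inv_apply' (r := rU) h (x u)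
    rw [h1, map_zero] at h2
    exact h2.symm
  have hνν : ∀ h : H, ν h⁻¹ * ν h = 1 := by
    intro h
    obtain ⟨u, hu⟩ : ∃ u, x u ≠ 0 := by
      by_contra hcon
      push Not at hcon
      exact hx0 (LinearMap.ext hcon)
    have h1 := hνx h⁻¹ (rU h u)
    have h2 := hνx h u
    rw [inv_apply'] at h1
    have h3 : x (rU h u) = (ν h)⁻¹ • rU h (x u) := by
      rw [h2, smul_smul, inv_mul_cancel₀ (hν0 h), one_smul]
    rw [h3, map_smul, inv_apply'] at h1
    have h4 : ((ν h)⁻¹ - ν h⁻¹) • x u = 0 := by rw [sub_smul, h1, sub_self]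
    rcases smul_eq_zero.1 h4 with h5 | h5
    · rw [← sub_eq_zero.1 h5, inv_mul_cancel₀ (hν0 h)]
    · exact absurd h5 hu
  classical
  let act : W → ℂ → ℂ := fun h z => if hh : h ∈ H then (ν ⟨h, hh⟩)⁻¹ * z else z
  have hact : ∀ (h : W) (hh : h ∈ H) (z : ℂ), act h z = (ν ⟨h, hh⟩)⁻¹ * z := fun h hh z =>
    dif_pos hh
  have hmemA : ∀ z u, u ∈ U ⊓ E z → ∀ y : Module.End ℂ U, Commute y x →
      ∀ hu : u ∈ U, ((y ⟨u, hu⟩ : U) : V) ∈ E z := by
    intro z u hu y hy hu'
    have h1 := (hmem z ⟨u, hu'⟩).1 hu.2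
    rw [hmem]
    have h2 := congrArg (fun f : Module.End ℂ U => f ⟨u, hu'⟩) hy.eq
    simp only [Module.End.mul_apply] at h2
    rw [← h2, h1, map_smul]
  refine step hcomm hAH hU hE (act := act) (i0 := μ) ?_ ?_ ?_ ?_ ?_ ?_
  · intro h hh z u hu
    have h1 := (hmem z ⟨u, hu.1⟩).1 hu.2
    have h2 : ((rU ⟨h, hh⟩ ⟨u, hu.1⟩ : U) : V) ∈ E (act h z) := by
      rw [hmem, hact h hh]
      have h3 := hνx ⟨h, hh⟩ ⟨u, hu.1⟩
      rw [h1, map_smul] at h3
      rw [mul_smul, h3, smul_smul, inv_mul_cancel₀ (hν0 _), one_smul]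
    exact h2
  · intro h hh z
    rw [hact h hh, hact h⁻¹ (H.inv_mem hh)]
    have h1 : (⟨h⁻¹, H.inv_mem hh⟩ : H) = (⟨h, hh⟩ : H)⁻¹ := rfl
    rw [h1, ← mul_assoc, ← mul_inv, hνν, inv_one, one_mul]
  · intro h
    obtain ⟨v, hv⟩ := hμ.exists_hasEigenvector
    apply hv.2
    have h1 : (v : V) ∈ U ⊓ E μ := ⟨v.2, (hmem μ v).2 hv.apply_eq_smul⟩
    rw [h, Submodule.mem_bot] at h1
    exact Subtype.ext h1
  · intro h
    apply hxns μ
    refine LinearMap.ext fun u => ?_
    have h1 : (u : V) ∈ U ⊓ E μ := by rw [h]; exact u.2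
    exact (hmem μ u).1 h1.2
  · intro k u hu
    exact hmemA μ u hu (cU k) (hx.2 k) hu.1
  · intro a ha u hu
    exact hmemA μ u hu (rU ⟨a, hAH ha⟩) (hx.1 _ (Subgroup.mem_subgroupOf.2 ha)) hu.1

end Pool.Agent.Q112.FL
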